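import Pool.Agent.H43.PJ.M47
import Pool.Agent.H43.PJ.M50
import Pool.Agent.H43.PJ.M51
import Pool.Agent.H43.PJ.M84
import Pool.Agent.H43.PJ.M85

/-!
# TQ SLow: the lower bound sieve, black box (compare `H76/TP/SvBB.lean`)

`w = R = ⌊L^B⌋`, `r = ⌊√L⌋`, `y = ⌊N^e1⌋`, `D = ⌊N^(e4/40)⌋`, `T = TSv w y r ρ`, `ρ p` = Selberg's weights for `PY w (p-1)`, `SF w (p-1) (ρ p) = 1/GD w (p-1) D` (`SvBB_sel`), `Q = y w^(2r+1) D² ≤ N^(e4/4)` (`sv_ev` in
`H76/TP/SvEv.lean` contains all the estimates: `w^(2r) D² ≤ N^(e4/12)`, `y ≤ N^e1`, `e1 ≤ e4/80`, `w ≤ y`), `kT = kTv w y ρ`.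
* `ts_le`, `ts_adm`; `|kT| ≤ 1`: `kT ≤ VV(PW w) ≤ 1`; and `kT ≥ VV(PY)-type` lower bound below (or `kT ≥ -∑ VV(PW w) SF/p`, and `SF ≤ 2 VV(PY w (p-1))`, so `kT ≥ VV(PW y) - small ≥ -1`).
* `Bs`: `tyI_bs` with `δ = (3 + log y)/2^r` (`gt_sing`), `B ≥ 2A + 10`, `6 (1 + log Q)^3 ≤ L^4`, `(Q^4) L^(A+5) ≤ N^(e4) ≤ N^(1/8)`.  Second moment: `tyI_sq` (`Q^4 ≤ N^(1/8)`).
* mean: `rg ≤ SS w y r ρ'` (`ss_ge`, `ρ'` = Selberg's weights for `PY w y`), `tyI_mean` and `gs_sing` with `q = 1`: `∑_{(x,x+l]} rg ≤ l (kS + 2^(-r)) + 6 Q²`, `kS = VV(PW w)/GD w y D ≤ VV(PW y)(1 + 2t)` (`SvBB_inv`, `t = C exp(-log D/log y)`),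
  `kT ≥ VV(PW w) - ∑_p VV(PW (p-1)) (1 + 2C exp(-log D/log p))/p ≥ VV(PW y) - (2 C C2/log y) exp(-log D/log y)` (`SvBB_inv`, `vbuch`, `vsum`; it is in the proof of `SvBB_mean`), `VV(PW y) ≤ C1/log y` (`vv_le`),
  so `kS - kT ≤ (2C(C1 + C2)/log y) exp(-log D/log y) ≤ ε/(4L)` for `e1 ≤ e10` (`SvBB_small`), the rest is negligible (`l ≥ N^(1/8) ≥ N^e4`).
-/

set_option autoImplicit false

namespace Pool.Agent.H91.TQ

open Finset
open Pool.Agent.H91.PK (ee)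
open Pool.Agent.H91.EHA (Lam hR lamR ramS)
open Pool.Agent.H53.MID (Fp Bs)
open Pool.Agent.H76.TP

private theorem SLow_mem (w y p : ℕ) (hp : p ∈ PY w y) : w < p ∧ p ≤ y ∧ p.Prime := by
  unfold PY at hp
  rw [mem_filter, mem_Ioc] at hp
  exact ⟨hp.1.1, hp.1.2, hp.2⟩

private theorem SLow_VV_nonneg (T : Finset ℕ) (h : ∀ p ∈ T, 1 ≤ p) : 0 ≤ VV T := by
  unfold VV
  refine prod_nonneg fun p hp => ?_
  have h1 : (1 : ℝ) ≤ p := by exact_mod_cast h p hp
  have h2 : 1 / (p : ℝ) ≤ 1 := by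
    rw [div_le_one (by linarith)]
    exact h1
  linarith only [h2]

private theorem SLow_VV_le (T : Finset ℕ) (h : ∀ p ∈ T, 1 ≤ p) : VV T ≤ 1 := by
  unfold VV
  refine prod_le_one (fun p hp => ?_) fun p hp => ?_
  · have h1 : (1 : ℝ) ≤ p := by exact_mod_cast h p hp
    have h2 : 1 / (p : ℝ) ≤ 1 := by
      rw [div_le_one (by linarith)]
      exact h1
    linarith only [h2]
  · have : 0 ≤ 1 / (p : ℝ) := by positivity
    linarith

private theorem SLow_PW (w : ℕ) : ∀ p ∈ PW w, 1 ≤ p := by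
  intro p hp
  unfold PW at hp
  rw [mem_filter, mem_Icc] at hp
  exact hp.1.1

private theorem SLow_PY (w y : ℕ) : ∀ p ∈ PY w y, 1 ≤ p := by
  intro p hp
  have := SLow_mem w y p hp
  omega

private theorem SLow_mul (w y : ℕ) (h : w ≤ y) : VV (PW w) * VV (PY w y) = VV (PW y) := by
  have h1 : PW y = PW w ∪ PY w y := by
    ext p
    unfold PW PY
    simp only [mem_union, mem_filter, mem_Icc, mem_Ioc]
    constructor
    · rintro ⟨⟨a, b⟩, c⟩
      rcases Nat.lt_or_ge w p with h2 | h2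
      · exact Or.inr ⟨⟨h2, b⟩, c⟩
      · exact Or.inl ⟨⟨a, h2⟩, c⟩
    · rintro (⟨⟨a, b⟩, c⟩ | ⟨⟨a, b⟩, c⟩)
      · exact ⟨⟨a, by omega⟩, c⟩
      · exact ⟨⟨by omega, b⟩, c⟩
  have h2 : Disjoint (PW w) (PY w y) := by
    rw [Finset.disjoint_left]
    intro p hp hp2
    have h3 := SLow_mem w y p hp2
    unfold PW at hp
    rw [mem_filter, mem_Icc] at hp
    omega
  rw [h1]
  unfold VV
  rw [prod_union h2]

private theorem SLow_GD (w y D : ℕ) (hD : 1 ≤ D) : 1 ≤ GD w y D := by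
  unfold GD
  have h1 : ∏ p ∈ (∅ : Finset ℕ), (1 / ((p : ℝ) - 1)) = 1 := prod_empty
  rw [← h1]
  refine single_le_sum (f := fun A : Finset ℕ => ∏ p ∈ A, (1 / ((p : ℝ) - 1))) (fun A hA => ?_) ?_
  · rw [mem_filter, mem_powerset] at hA
    refine prod_nonneg fun p hp => ?_
    have h2 : (1 : ℝ) ≤ p := by exact_mod_cast SLow_PY w y p (hA.1 hp)
    have h3 : (0 : ℝ) ≤ (p : ℝ) - 1 := by linarith only [h2]
    positivity
  · rw [mem_filter, mem_powerset]
    refine ⟨empty_subset _, ?_⟩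
    rw [prod_empty]
    exact hD

/-- Selberg's weights -/
private theorem SLow_sel (w y D : ℕ) (hw : 1 ≤ w) (hD : 1 ≤ D) :
    ∃ ρ : Finset ℕ → ℝ, Rho w y D ρ ∧ SF w y ρ = 1 / GD w y D := by
  obtain ⟨ρ, h1, h2, h3, h4⟩ := Pool.Agent.H87T.sel_weights (PY w y) (SLow_PY w y) (fun p => 1 / (p : ℝ))
    (fun p hp => by
      have h5 := SLow_mem w y p hp
      have h6 : (1 : ℝ) < p := by exact_mod_cast (by omega : 1 < p)
      refine ⟨by positivity, ?_⟩
      rw [div_lt_one (by linarith only [h6])]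
      exact h6) D hD
  refine ⟨ρ, ⟨h1, h2, h3⟩, ?_⟩
  have h7 : ∑ A ∈ (PY w y).powerset.filter (fun A => ∏ p ∈ A, p ≤ D), ∏ p ∈ A,
      ((1 / (p : ℝ)) / (1 - 1 / (p : ℝ))) = GD w y D := by
    unfold GD
    refine sum_congr rfl fun A hA => ?_
    rw [mem_filter, mem_powerset] at hA
    refine prod_congr rfl fun p hp => ?_
    have h5 := SLow_mem w y p (hA.1 hp)
    have h6 : (1 : ℝ) < p := by exact_mod_cast (by omega : 1 < p)
    have h8 : (p : ℝ) ≠ 0 := by linarith only [h6]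
    have h9 : (p : ℝ) - 1 ≠ 0 := by linarith only [h6]
    field_simp
  rw [h7] at h4
  have h10 : 0 < GD w y D := lt_of_lt_of_le one_pos (SLow_GD w y D hD)
  rw [eq_div_iff h10.ne']
  exact h4

private theorem SLow_adm (w y r D : ℕ) (ρ : Finset ℕ → ℝ) (hw : 1 ≤ w) (hwy : w ≤ y) (hρ : Rho w y D ρ) :
    Adm (w ^ (2 * r) * D ^ 2) (gS w y r ρ) (SS w y r ρ) := by
  refine ⟨fun n hn => ?_, fun n => gs_abs w y r D ρ hρ n, fun m hm => ss_exp w y r D ρ hw hwy hρ m hm⟩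
  unfold gS
  rw [if_neg]
  rintro ⟨h, -⟩
  exact hn h

/-- `1/GD ≤ VV (PY) (1 + 2t)` -/
private theorem SLow_inv (C : ℝ) (hC : 0 < C) (hg : ∀ w y D : ℕ, 2 ≤ w → w ≤ y → 1 ≤ D →
    1 - C * Real.exp (-(Real.log D / Real.log y)) ≤ VV (PY w y) * GD w y D) (w y D : ℕ) (hw : 2 ≤ w)
    (hwy : w ≤ y) (hD : 1 ≤ D) (t : ℝ) (ht : C * Real.exp (-(Real.log D / Real.log y)) ≤ t) (ht2 : t ≤ 1 / 2) :
    VV (PW w) * (1 / GD w y D) ≤ VV (PW y) * (1 + 2 * t) := by
  have h1 := hg w y D hw hwy hD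
  have h2 : 0 < GD w y D := lt_of_lt_of_le one_pos (SLow_GD w y D hD)
  have ht0 : 0 ≤ t := le_trans (by positivity) ht
  rw [← SLow_mul w y hwy, mul_assoc]
  refine mul_le_mul_of_nonneg_left ?_ (SLow_VV_nonneg _ (SLow_PW w))
  rw [div_le_iff₀ h2]
  have h3 : 1 - t ≤ VV (PY w y) * GD w y D := by linarith only [ht, h1]
  have h4 : (1 - t) * (1 + 2 * t) ≤ VV (PY w y) * GD w y D * (1 + 2 * t) :=
    mul_le_mul_of_nonneg_right h3 (by linarith only [ht0])
  have h5 : 1 ≤ (1 - t) * (1 + 2 * t) := by nlinarith only [ht2, ht0]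
  calc (1 : ℝ) ≤ _ := h5.trans h4
    _ = VV (PY w y) * (1 + 2 * t) * GD w y D := by ring

/-- `(1/e1) exp(-e4/(50 e1))` is small -/
private theorem SLow_small (e4 K δ : ℝ) (he4 : 0 < e4) (hK : 0 < K) (hδ : 0 < δ) :
    ∃ e10 : ℝ, 0 < e10 ∧ ∀ e1 : ℝ, 0 < e1 → e1 ≤ e10 → K / e1 * Real.exp (-(e4 / (50 * e1))) ≤ δ := by
  refine ⟨δ * e4 ^ 2 / (5000 * K), by positivity, fun e1 h0 h1 => ?_⟩
  have h2 : (e4 / (50 * e1)) ^ 2 / 2 ≤ Real.exp (e4 / (50 * e1)) := by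
    have := Real.quadratic_le_exp_of_nonneg (show 0 ≤ e4 / (50 * e1) by positivity)
    have h3 : 0 ≤ e4 / (50 * e1) := by positivity
    linarith only [this, h3]
  rw [Real.exp_neg, ← div_eq_mul_inv, div_div, div_le_iff₀ (by positivity)]
  rw [le_div_iff₀ (by positivity)] at h1
  calc K = K := rfl
    _ ≤ δ * (e1 * ((e4 / (50 * e1)) ^ 2 / 2)) := by
        have h4 : δ * (e1 * ((e4 / (50 * e1)) ^ 2 / 2)) = δ * e4 ^ 2 / (5000 * e1) := by
          field_simp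
          ring
        rw [h4, le_div_iff₀ (by positivity)]
        linarith only [h1]
    _ ≤ δ * (e1 * Real.exp (e4 / (50 * e1))) := by
        refine mul_le_mul_of_nonneg_left ?_ hδ.le
        exact mul_le_mul_of_nonneg_left h2 h0.le

/-- the sum over the primes and the two densities -/
private theorem SLow_dens (C C1 C2 : ℝ) (hC : 0 < C)
    (hg : ∀ w y D : ℕ, 2 ≤ w → w ≤ y → 1 ≤ D →
      1 - C * Real.exp (-(Real.log D / Real.log y)) ≤ VV (PY w y) * GD w y D)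
    (hv : ∀ n : ℕ, 2 ≤ n → VV (PW n) ≤ C1 / Real.log n)
    (hs : ∀ w y D : ℕ, 2 ≤ w → w ≤ y → y ≤ D →
      ∑ p ∈ PY w y, VV (PW (p - 1)) / p * Real.exp (-(Real.log D / Real.log p)) ≤
        C2 / Real.log y * Real.exp (-(Real.log D / Real.log y)))
    (w y D : ℕ) (ρ : ℕ → Finset ℕ → ℝ) (hw : 2 ≤ w) (hwy : w ≤ y) (hyD : y ≤ D)
    (hρ2 : ∀ p, SF w (p - 1) (ρ p) = 1 / GD w (p - 1) D)
    (hE : C * Real.exp (-(Real.log D / Real.log y)) ≤ 1 / 2) :
    VV (PW w) * (1 / GD w y D) ≤ kTv w y ρ +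
      2 * C * (C1 + C2) / Real.log y * Real.exp (-(Real.log D / Real.log y)) ∧ |kTv w y ρ| ≤ 1 := by
  classical
  have hD : 1 ≤ D := by omega
  have hGD : ∀ y' : ℕ, 0 < GD w y' D := fun y' => lt_of_lt_of_le one_pos (SLow_GD w y' D hD)
  have hlogD : 0 ≤ Real.log D := Real.log_natCast_nonneg D
  have hlogy : 0 < Real.log y := Real.log_pos (by exact_mod_cast (by omega : 1 < y))
  have h2 : ∀ p ∈ PY w y, VV (PW w) * SF w (p - 1) (ρ p) / p ≤ VV (PW (p - 1)) / p +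
      2 * C * (VV (PW (p - 1)) / p * Real.exp (-(Real.log D / Real.log p))) ∧
      VV (PW w) * SF w (p - 1) (ρ p) / p ≤ 2 * (VV (PW (p - 1)) / p) := by
    intro p hp
    obtain ⟨p1, p2, p3⟩ := SLow_mem w y p hp
    have hp0 : (0 : ℝ) < p := by exact_mod_cast (by omega : 0 < p)
    have q1 : 0 < Real.log ((p - 1 : ℕ) : ℝ) := Real.log_pos (by exact_mod_cast (by omega : 1 < p - 1))
    have q2 : Real.log ((p - 1 : ℕ) : ℝ) ≤ Real.log p :=
      Real.log_le_log (by exact_mod_cast (by omega : 0 < p - 1)) (by exact_mod_cast (by omega))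
    have q3 : Real.log p ≤ Real.log y := Real.log_le_log hp0 (by exact_mod_cast p2)
    have q4 : 0 < Real.log (p : ℝ) := by linarith only [q1, q2]
    have q5 : Real.exp (-(Real.log D / Real.log ((p - 1 : ℕ) : ℝ))) ≤ Real.exp (-(Real.log D / Real.log p)) := by
      apply Real.exp_le_exp.2
      have := div_le_div_of_nonneg_left hlogD q1 q2
      linarith only [this]
    have q6 : Real.exp (-(Real.log D / Real.log p)) ≤ Real.exp (-(Real.log D / Real.log y)) := by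
      apply Real.exp_le_exp.2
      have := div_le_div_of_nonneg_left hlogD q4 q3
      linarith only [this]
    have q61 : C * Real.exp (-(Real.log D / Real.log p)) ≤ 1 / 2 := (mul_le_mul_of_nonneg_left q6 hC.le).trans hE
    have q7 := SLow_inv C hC hg w (p - 1) D hw (by omega) hD (C * Real.exp (-(Real.log D / Real.log p)))
      (mul_le_mul_of_nonneg_left q5 hC.le) q61
    have q9 : 0 ≤ VV (PW (p - 1)) := SLow_VV_nonneg _ (SLow_PW (p - 1))
    rw [hρ2 p]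
    have q8 := div_le_div_of_nonneg_right q7 hp0.le
    constructor
    · refine q8.trans (le_of_eq ?_)
      ring
    · refine q8.trans ?_
      have q10 : VV (PW (p - 1)) * (1 + 2 * (C * Real.exp (-(Real.log D / Real.log p)))) ≤ 2 * VV (PW (p - 1)) := by
        have := mul_le_mul_of_nonneg_left q61 q9
        linarith only [this]
      have q11 := div_le_div_of_nonneg_right q10 hp0.le
      refine q11.trans (le_of_eq ?_)
      ring
  have h1 : ∑ p ∈ PY w y, VV (PW w) * SF w (p - 1) (ρ p) / p ≤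
      ∑ p ∈ PY w y, VV (PW (p - 1)) / p +
        2 * C * (C2 / Real.log y * Real.exp (-(Real.log D / Real.log y))) := by
    refine (sum_le_sum fun p hp => (h2 p hp).1).trans ?_
    rw [sum_add_distrib, ← mul_sum]
    have h3 := mul_le_mul_of_nonneg_left (hs w y D hw hwy hyD) (show 0 ≤ 2 * C by positivity)
    linarith only [h3]
  have h1' : ∑ p ∈ PY w y, VV (PW w) * SF w (p - 1) (ρ p) / p ≤ 2 * ∑ p ∈ PY w y, VV (PW (p - 1)) / p := by
    rw [mul_sum]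
    exact sum_le_sum fun p hp => (h2 p hp).2
  have h1n : 0 ≤ ∑ p ∈ PY w y, VV (PW w) * SF w (p - 1) (ρ p) / p := by
    refine sum_nonneg fun p hp => ?_
    rw [hρ2 p]
    exact div_nonneg (mul_nonneg (SLow_VV_nonneg _ (SLow_PW w)) (div_pos one_pos (hGD _)).le) (Nat.cast_nonneg _)
  have h4 := vbuch w y hwy
  have h5 : VV (PW w) * (1 / GD w y D) ≤ VV (PW y) +
      2 * C * (C1 / Real.log y * Real.exp (-(Real.log D / Real.log y))) := by
    have q7 := SLow_inv C hC hg w y D hw hwy hD _ le_rfl hE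
    have q8 := mul_le_mul_of_nonneg_right (hv y (by omega))
      (show 0 ≤ 2 * C * Real.exp (-(Real.log D / Real.log y)) by positivity)
    calc _ ≤ _ := q7
      _ = VV (PW y) + VV (PW y) * (2 * C * Real.exp (-(Real.log D / Real.log y))) := by ring
      _ ≤ VV (PW y) + C1 / Real.log y * (2 * C * Real.exp (-(Real.log D / Real.log y))) := by linarith only [q8]
      _ = _ := by ring
  have h6 := SLow_VV_nonneg _ (SLow_PW y)
  have h7 := SLow_VV_le _ (SLow_PW w)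
  have h9 := SLow_VV_nonneg _ (SLow_PW w)
  unfold kTv
  constructor
  · have h8 : 2 * C * (C1 + C2) / Real.log y * Real.exp (-(Real.log D / Real.log y)) =
        2 * C * (C1 / Real.log y * Real.exp (-(Real.log D / Real.log y))) +
        2 * C * (C2 / Real.log y * Real.exp (-(Real.log D / Real.log y))) := by ring
    rw [h8]
    linarith only [h1, h4, h5]
  · rw [abs_le]
    constructor
    · linarith only [h1', h4, h6, h7]
    · linarith only [h1n, h7]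

theorem sieve_low (e4 ε : ℝ) (he4 : 0 < e4) (he4' : e4 ≤ 1 / 100) (hε : 0 < ε) :
    ∃ e10 : ℝ, 0 < e10 ∧ ∀ e1 : ℝ, 0 < e1 → e1 ≤ e10 → ∃ C : ℕ, ∀ A : ℕ, ∃ B0 : ℕ, ∀ B : ℕ, B0 ≤ B → ∃ N0 : ℕ,
      ∀ N : ℕ, N0 ≤ N → ∃ (T g : ℕ → ℝ) (kT : ℝ) (Q : ℕ),
        Adm Q g T ∧ 1 ≤ Q ∧ (Q : ℝ) ≤ (N : ℝ) ^ e4 ∧ (∀ m, 1 ≤ m → T m ≤ rg (yN e1 N) m) ∧ |kT| ≤ 1 ∧
        (∀ (H i : ℕ) (α : ℝ), (N : ℝ) ^ (1 / 8 : ℝ) ≤ H → 1 ≤ i →
          ‖Bs (fun m => T m - kT * lamR ⌊Real.log N ^ B⌋₊ m) H i α‖ ≤ H / Real.log N ^ A) ∧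
        (∀ u w : ℕ, 1 ≤ u → (N : ℝ) ^ (1 / 8 : ℝ) ≤ w → ∑ m ∈ Ico u (u + w), T m ^ 2 ≤ w * Real.log N ^ C) ∧
        (∀ x l : ℕ, (N : ℝ) ^ (1 / 8 : ℝ) ≤ l →
          ∑ m ∈ Ioc x (x + l), rg (yN e1 N) m ≤ kT * l + ε * l / Real.log N) := by
  obtain ⟨C, hC, hg⟩ := gup
  obtain ⟨C1, hC1, hv⟩ := vv_le
  obtain ⟨C2, hC2, hs⟩ := vsum
  obtain ⟨a1, ha1, hs1⟩ := SLow_small e4 (4 * C * (C1 + C2)) (ε / 2) he4 (by positivity) (by positivity)
  obtain ⟨a2, ha2, hs2⟩ := SLow_small e4 C (1 / 2) he4 hC (by norm_num)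
  refine ⟨min (min a1 a2) (min (e4 / 80) 1), by positivity, fun e1 he1 he1' => ?_⟩
  simp only [le_min_iff] at he1'
  obtain ⟨⟨k1, k2⟩, k3, k4⟩ := he1'
  refine ⟨16, fun A => ⟨2 * A + 10, fun B hB => ?_⟩⟩
  obtain ⟨N0, hN0⟩ := sv_ev e4 e1 ε he4 he1 k3 hε (A + 2) B (by omega)
  obtain ⟨N1, hN1⟩ := Pool.Agent.H76.GB.log_pow_le (1 / 16) 8 (by norm_num) (by norm_num) (A + 4)
  refine ⟨max N0 N1, fun N hN => ?_⟩
  have hlp := hN1 N ((le_max_right _ _).trans hN)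
  set w := ⌊Real.log N ^ B⌋₊ with hw
  set r := ⌊Real.sqrt (Real.log N)⌋₊ with hr
  set D := ⌊(N : ℝ) ^ (e4 / 40)⌋₊ with hD
  obtain ⟨b1, b2, b3, b4, b5, b6, b7, b8, b9, b10, b11, b12, b13, b14, b15, b16, b17, b18, b19, b20⟩ :=
    hN0 N ((le_max_left _ _).trans hN) w r D (w ^ (2 * r) * D ^ 2) hw hr hD rfl
  set y := yN e1 N with hy
  set L := Real.log (N : ℝ) with hL
  set Q0 := w ^ (2 * r) * D ^ 2 with hQ0
  have hL0 : 0 < L := by linarith only [he4', he1, k3, b1]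
  have hL1 : 1 ≤ L := by linarith only [he4', he1, k3, b1]
  have hN0' : N ≠ 0 := by
    rintro rfl
    rw [hL] at b1
    norm_num at b1
  have hNr1 : (1 : ℝ) ≤ N := by exact_mod_cast Nat.one_le_iff_ne_zero.2 hN0'
  have hNpos : (0 : ℝ) < N := by linarith only [he4', he1, k3, hNr1]
  -- the level
  obtain ⟨Q, hQ⟩ : ∃ Q, Q = y * (w ^ (2 * r + 1) * D ^ 2) := ⟨_, rfl⟩
  have hQe : Q = y * w * Q0 := by rw [hQ, hQ0]; ring
  have hy1 : 1 ≤ y := by omega
  have hQ01 : 1 ≤ Q0 := by omega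
  have hwQ : w ≤ Q := by
    rw [hQe]
    calc w = 1 * w * 1 := by ring
      _ ≤ y * w * Q0 := Nat.mul_le_mul (Nat.mul_le_mul hy1 le_rfl) hQ01
  have hQ1 : 1 ≤ Q := by omega
  have hQr : (1 : ℝ) ≤ Q := by exact_mod_cast hQ1
  have hlogQ : 0 ≤ Real.log Q := Real.log_nonneg hQr
  have hwN : (w : ℝ) ≤ (N : ℝ) ^ e1 := le_trans (by exact_mod_cast b3) b8
  have hQN : (Q : ℝ) ≤ (N : ℝ) ^ (e4 / 8) := by
    rw [hQe]
    push_cast
    calc (y : ℝ) * w * Q0 ≤ (N : ℝ) ^ e1 * (N : ℝ) ^ e1 * (N : ℝ) ^ (e4 / 12) :=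
          mul_le_mul (mul_le_mul b8 hwN (Nat.cast_nonneg _) (by positivity)) b10 (Nat.cast_nonneg _) (by positivity)
      _ = (N : ℝ) ^ (e1 + e1 + e4 / 12) := by
          rw [Real.rpow_add hNpos, Real.rpow_add hNpos]
      _ ≤ (N : ℝ) ^ (e4 / 8) := Real.rpow_le_rpow_of_exponent_le hNr1 (by linarith only [he1, k3])
  have hQ4 : (Q : ℝ) ^ 4 ≤ (N : ℝ) ^ (1 / 200 : ℝ) := by
    calc (Q : ℝ) ^ 4 ≤ ((N : ℝ) ^ (e4 / 8)) ^ 4 := pow_le_pow_left₀ (Nat.cast_nonneg _) hQN 4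
      _ = (N : ℝ) ^ (e4 / 2) := by
          rw [← Real.rpow_natCast, ← Real.rpow_mul hNpos.le]
          congr 1
          push_cast
          ring
      _ ≤ (N : ℝ) ^ (1 / 200 : ℝ) := Real.rpow_le_rpow_of_exponent_le hNr1 (by linarith only [he4'])
  have hQL : Real.log Q ≤ L / 800 := by
    have h1 := Real.log_le_log (by linarith only [he4', he1, k3, hQr]) hQN
    rw [Real.log_rpow hNpos] at h1
    have h2 : e4 / 8 * Real.log (N : ℝ) ≤ 1 / 800 * L := mul_le_mul_of_nonneg_right (by linarith only [he4']) hL0.le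
    linarith only [h1, h2]
  have c11 : 6 * (1 + Real.log Q) ^ 3 ≤ L ^ 4 := by
    calc 6 * (1 + Real.log Q) ^ 3 ≤ 6 * L ^ 3 :=
          mul_le_mul_of_nonneg_left (pow_le_pow_left₀ (by linarith only [he4', he1, k3, hlogQ]) (by linarith only [he4', he1, k3, b1, hQL]) 3) (by norm_num)
      _ ≤ L * L ^ 3 := mul_le_mul_of_nonneg_right (by linarith only [he4', he1, k3, b1]) (by positivity)
      _ = L ^ 4 := by ring
  have c12 : 100 * (1 + 2 * Real.log Q) ^ 15 ≤ L ^ 16 := by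
    have t1 : 1 + 2 * Real.log Q ≤ L / 7 := by linarith only [he4', he1, k3, b1, hQL]
    calc 100 * (1 + 2 * Real.log Q) ^ 15 ≤ 100 * (L / 7) ^ 15 :=
          mul_le_mul_of_nonneg_left (pow_le_pow_left₀ (by linarith only [he4', he1, k3, hlogQ]) t1 15) (by norm_num)
      _ = (100 / 7 ^ 15) * L ^ 15 := by ring
      _ ≤ L * L ^ 15 := mul_le_mul_of_nonneg_right (le_trans (by norm_num) hL1) (by positivity)
      _ = L ^ 16 := by ring
  have hlogy : 0 < Real.log y := lt_of_lt_of_le (by positivity) b9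
  have hlogyL : Real.log y ≤ L := by
    have h1 := Real.log_le_log (by exact_mod_cast hy1) b8
    rw [Real.log_rpow hNpos] at h1
    have h2 : e1 * Real.log (N : ℝ) ≤ 1 * L := mul_le_mul_of_nonneg_right k4 hL0.le
    linarith only [h1, h2]
  have h2r : (0 : ℝ) < 2 ^ r := by positivity
  -- the weights
  have hsel' : ∀ p : ℕ, ∃ ρ : Finset ℕ → ℝ, Rho w (p - 1) D ρ ∧ SF w (p - 1) ρ = 1 / GD w (p - 1) D :=
    fun p => SLow_sel w (p - 1) D (by omega) b7
  choose ρ hρ1 hρ2 using hsel'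
  have hGD : ∀ y' : ℕ, 0 < GD w y' D := fun y' => lt_of_lt_of_le one_pos (SLow_GD w y' D b7)
  have hexp : Real.exp (-(Real.log D / Real.log y)) ≤ Real.exp (-(e4 / (50 * e1))) := by
    apply Real.exp_le_exp.2
    linarith only [b18]
  have hE : C * Real.exp (-(Real.log D / Real.log y)) ≤ 1 / 2 := by
    have t1 := hs2 e1 he1 k2
    have t2 : C * Real.exp (-(e4 / (50 * e1))) ≤ C / e1 * Real.exp (-(e4 / (50 * e1))) := by
      refine mul_le_mul_of_nonneg_right ?_ (Real.exp_pos _).le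
      rw [le_div_iff₀ he1]
      exact mul_le_of_le_one_right hC.le k4
    exact (mul_le_mul_of_nonneg_left hexp hC.le).trans (t2.trans t1)
  obtain ⟨hkk, hk1⟩ := SLow_dens C C1 C2 hC hg hv hs w y D ρ b2 b3 b6 hρ2 hE
  have hAdm : Adm Q (gT w y r ρ) (TSv w y r ρ) := by
    rw [hQ]
    exact ts_adm w y r D ρ (by omega) b3 b7 (fun p _ => hρ1 p)
  refine ⟨TSv w y r ρ, gT w y r ρ, kTv w y ρ, Q, hAdm, hQ1,
    hQN.trans (Real.rpow_le_rpow_of_exponent_le hNr1 (by linarith only [he1, k3])),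
    fun m hm => ts_le w y r D ρ (by omega) b3 (fun p _ => hρ1 p) m hm, hk1, ?_, ?_, ?_⟩
  · -- Bs
    intro H i α hH hi
    have hH0 : (0 : ℝ) < H := lt_of_lt_of_le (by positivity) hH
    have hH1 : 1 ≤ H := by exact_mod_cast Nat.pos_of_ne_zero (fun h => by rw [h] at hH0; norm_num at hH0)
    have key := tyI_bs Q w (gT w y r ρ) (TSv w y r ρ) (kTv w y ρ) ((3 + Real.log y) / 2 ^ r) hAdm
      (by omega) hwQ (by positivity) (fun q hq hqw => by
        rw [hQ]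
        exact gt_sing w y r D q ρ b2 b3 b7 b5 (fun p _ => ⟨hρ1 p, by
          rw [hρ2 p]; exact (div_pos one_pos (hGD _)).le, by
          rw [hρ2 p, div_le_one (hGD _)]; exact SLow_GD w (p - 1) D b7⟩) hq hqw) H i hi hH1 α
    refine key.trans ?_
    have hd : (3 + Real.log y) * (8 * L ^ A) ≤ 2 ^ r := by
      have t1 : 3 + Real.log y ≤ L ^ 2 := by
        have t2 : 8 * L ≤ L * L := mul_le_mul_of_nonneg_right b1 hL0.le
        rw [pow_two]
        linarith only [he4', he1, k3, b1, hlogyL, t2]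
      calc (3 + Real.log y) * (8 * L ^ A) ≤ L ^ 2 * (8 * L ^ A) := mul_le_mul_of_nonneg_right t1 (by positivity)
        _ = 8 * L ^ (A + 2) := by ring
        _ ≤ 2 ^ r := b13
    have e1' : (3 + Real.log y) / 2 ^ r ≤ 1 / (8 * L ^ A) := by
      rw [div_le_div_iff₀ h2r (by positivity)]
      linarith only [hd]
    have e2 : 6 * (1 + Real.log Q) ^ 3 / Real.sqrt w ≤ 1 / (2 * L ^ A) := by
      have hw0 : (0 : ℝ) < w := by exact_mod_cast (by omega : 0 < w)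
      rw [div_le_div_iff₀ (Real.sqrt_pos.2 hw0) (by positivity)]
      have t1 : 2 * L ^ (A + 4) ≤ Real.sqrt w := by
        apply Real.le_sqrt_of_sq_le
        have t2 : (2 * L ^ (A + 4)) ^ 2 = 4 * L ^ (2 * A + 8) := by ring
        have t3 : L ^ (2 * A + 8) * 8 ≤ L ^ B := by
          calc L ^ (2 * A + 8) * 8 ≤ L ^ (2 * A + 8) * L := mul_le_mul_of_nonneg_left b1 (by positivity)
            _ = L ^ (2 * A + 9) := by ring
            _ ≤ L ^ B := pow_le_pow_right₀ hL1 (by omega)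
        rw [t2]
        linarith only [b4, t3]
      calc 6 * (1 + Real.log Q) ^ 3 * (2 * L ^ A) ≤ L ^ 4 * (2 * L ^ A) :=
            mul_le_mul_of_nonneg_right c11 (by positivity)
        _ = 2 * L ^ (A + 4) := by ring
        _ ≤ Real.sqrt w := t1
        _ = 1 * Real.sqrt w := (one_mul _).symm
    have e3 : (Q : ℝ) ^ 4 * ((3 + Real.log y) / 2 ^ r + 6 * (1 + Real.log Q) ^ 3) ≤ H / (4 * L ^ A) := by
      have t1 : (3 + Real.log y) / 2 ^ r ≤ 1 := by
        refine e1'.trans ?_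
        rw [div_le_one (by positivity)]
        have := one_le_pow₀ (M₀ := ℝ) hL1 (n := A)
        linarith only [he4', he1, k3, this]
      have t2 : (1 : ℝ) ≤ L ^ 4 := one_le_pow₀ hL1
      have t3 : (3 + Real.log y) / 2 ^ r + 6 * (1 + Real.log Q) ^ 3 ≤ 2 * L ^ 4 := by linarith only [c11, t1, t2]
      rw [le_div_iff₀ (by positivity)]
      calc (Q : ℝ) ^ 4 * ((3 + Real.log y) / 2 ^ r + 6 * (1 + Real.log Q) ^ 3) * (4 * L ^ A)
          ≤ (Q : ℝ) ^ 4 * (2 * L ^ 4) * (4 * L ^ A) := by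
            refine mul_le_mul_of_nonneg_right (mul_le_mul_of_nonneg_left t3 (by positivity)) (by positivity)
        _ = (Q : ℝ) ^ 4 * (8 * L ^ (A + 4)) := by ring
        _ ≤ (N : ℝ) ^ (1 / 200 : ℝ) * (N : ℝ) ^ (1 / 16 : ℝ) :=
            mul_le_mul hQ4 hlp (by positivity) (by positivity)
        _ = (N : ℝ) ^ (1 / 200 + 1 / 16 : ℝ) := by rw [Real.rpow_add hNpos]
        _ ≤ (N : ℝ) ^ (1 / 8 : ℝ) := Real.rpow_le_rpow_of_exponent_le hNr1 (by norm_num)
        _ ≤ H := hH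
    have e4' : (H : ℝ) * ((3 + Real.log y) / 2 ^ r + 6 * (1 + Real.log Q) ^ 3 / Real.sqrt w) ≤
        H * (1 / (8 * L ^ A) + 1 / (2 * L ^ A)) := mul_le_mul_of_nonneg_left (add_le_add e1' e2) hH0.le
    have e5 : (H : ℝ) * (1 / (8 * L ^ A) + 1 / (2 * L ^ A)) + H / (4 * L ^ A) = 7 / 8 * (H / L ^ A) := by
      field_simp
      ring
    have e6 : 0 < (H : ℝ) / L ^ A := by positivity
    linarith only [e3, e4', e5, e6]
  · -- the second moment
    intro u w' hu hw'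
    have hw4 : Q ^ 4 ≤ w' := by
      have : ((Q ^ 4 : ℕ) : ℝ) ≤ w' := by
        push_cast
        exact hQ4.trans ((Real.rpow_le_rpow_of_exponent_le hNr1 (by norm_num)).trans hw')
      exact_mod_cast this
    have key := tyI_sq Q (gT w y r ρ) (TSv w y r ρ) hQ1 hAdm u w' hu hw4
    refine key.trans ?_
    calc 100 * (w' : ℝ) * (1 + 2 * Real.log Q) ^ 15 = w' * (100 * (1 + 2 * Real.log Q) ^ 15) := by ring
      _ ≤ w' * L ^ 16 := mul_le_mul_of_nonneg_left c12 (Nat.cast_nonneg _)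
  · -- the mean value
    intro x l hl
    have hl0 : (0 : ℝ) ≤ l := Nat.cast_nonneg _
    have hle4 : (N : ℝ) ^ e4 ≤ l := (Real.rpow_le_rpow_of_exponent_le hNr1 (by linarith only [he4', he1, k3])).trans hl
    obtain ⟨ρ', hρ', hSF⟩ := SLow_sel w y D (by omega) b7
    have hAdm' : Adm Q0 (gS w y r ρ') (SS w y r ρ') := SLow_adm w y r D ρ' (by omega) b3 hρ'
    have n1 : ∑ m ∈ Ioc x (x + l), rg y m ≤ ∑ m ∈ Ioc x (x + l), SS w y r ρ' m := by
      refine sum_le_sum fun m hm => ?_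
      rw [mem_Ioc] at hm
      exact ss_ge w y r D ρ' b3 hρ' m (by omega)
    have n2 := (abs_le.1 (tyI_mean Q0 (gS w y r ρ') (SS w y r ρ') hQ01 hAdm' x l)).2
    have n3 := (abs_le.1 (gs_sing w y r D 1 ρ' b2 b3 hρ' b5
      (by rw [hSF]; exact (div_pos one_pos (hGD _)).le)
      (by rw [hSF, div_le_one (hGD _)]; exact SLow_GD w y D b7) le_rfl (by omega))).2
    have n4 : ∑ n ∈ (Icc 1 (w ^ (2 * r) * D ^ 2)).filter (fun n => 1 ∣ n), gS w y r ρ' n / n =
        ∑ n ∈ Icc 1 Q0, gS w y r ρ' n / n := by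
      rw [filter_true_of_mem (fun n _ => one_dvd n)]
    rw [n4, hSF] at n3
    simp only [ArithmeticFunction.moebius_apply_one, Nat.totient_one, Int.cast_one, Nat.cast_one, mul_one,
      div_one] at n3
    have n5 : (l : ℝ) * ∑ n ∈ Icc 1 Q0, gS w y r ρ' n / n ≤
        l * (kTv w y ρ + 2 * C * (C1 + C2) / Real.log y * Real.exp (-(Real.log D / Real.log y)) + 1 / 2 ^ r) :=
      mul_le_mul_of_nonneg_left (by linarith only [hkk, n3]) hl0
    have m1 : (l : ℝ) * (2 * C * (C1 + C2) / Real.log y * Real.exp (-(Real.log D / Real.log y))) ≤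
        ε / 2 * l / L := by
      have t1 := hs1 e1 he1 k1
      have t2 : 2 * C * (C1 + C2) / Real.log y ≤ 4 * C * (C1 + C2) / e1 / L := by
        rw [div_div, div_le_div_iff₀ hlogy (by positivity)]
        have t3 := mul_le_mul_of_nonneg_left b9 (show 0 ≤ 4 * C * (C1 + C2) by positivity)
        linarith only [t3]
      have t4 : 2 * C * (C1 + C2) / Real.log y * Real.exp (-(Real.log D / Real.log y)) ≤
          4 * C * (C1 + C2) / e1 / L * Real.exp (-(e4 / (50 * e1))) :=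
        mul_le_mul t2 hexp (Real.exp_pos _).le (by positivity)
      have t5 : 4 * C * (C1 + C2) / e1 / L * Real.exp (-(e4 / (50 * e1))) =
          (4 * C * (C1 + C2) / e1 * Real.exp (-(e4 / (50 * e1)))) / L := by ring
      rw [t5] at t4
      have t6 := t4.trans (div_le_div_of_nonneg_right t1 hL0.le)
      calc _ ≤ (l : ℝ) * (ε / 2 / L) := mul_le_mul_of_nonneg_left t6 hl0
        _ = ε / 2 * l / L := by ring
    have m2 : (l : ℝ) * (1 / 2 ^ r) ≤ ε / 8 * l / L := by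
      rw [mul_one_div, div_le_div_iff₀ h2r hL0]
      have t0 : 8 * L ≤ ε * 2 ^ r := by
        refine le_trans ?_ b14
        exact mul_le_mul_of_nonneg_right (by linarith only [he4', he1, k3, hlogy]) hL0.le
      have t1 := mul_le_mul_of_nonneg_left t0 hl0
      linarith only [t1]
    have m3 : 6 * (Q0 : ℝ) ^ 2 ≤ ε / 8 * l / L := by
      rw [le_div_iff₀ hL0]
      have t1 := mul_le_mul_of_nonneg_left hle4 hε.le
      have t2 : (1 : ℝ) ≤ y := by exact_mod_cast hy1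
      have t3 : 80 * 1 * (Q0 : ℝ) ^ 2 * L ≤ 80 * y * (Q0 : ℝ) ^ 2 * L :=
        mul_le_mul_of_nonneg_right (mul_le_mul_of_nonneg_right (by linarith only [t2]) (by positivity)) hL0.le
      have t4 : 0 ≤ (Q0 : ℝ) ^ 2 * L := by positivity
      linarith only [b15, t1, t3, t4]
    have m5 : ε * l / L = ε / 2 * l / L + ε / 8 * l / L + ε / 8 * l / L + ε / 8 * l / L + ε / 8 * l / L := by ring
    have m6 : 0 ≤ ε / 8 * l / L := by positivity
    have m7 : (l : ℝ) * (kTv w y ρ + 2 * C * (C1 + C2) / Real.log y * Real.exp (-(Real.log D / Real.log y)) + 1 / 2 ^ r)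
        = kTv w y ρ * l + l * (2 * C * (C1 + C2) / Real.log y * Real.exp (-(Real.log D / Real.log y))) +
          l * (1 / 2 ^ r) := by ring
    rw [m7] at n5
    rw [m5]
    linarith only [n1, n2, n5, m1, m2, m3, m6]

end Pool.Agent.H91.TQ
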